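import Mathlib
import Pool.Agent.H.MP_31068f_lc.Main

set_option autoImplicit false

namespace Pool.Agent.Results.MP_31068f_lc.Counter

open Pool.Agent.H.MP_26c4ab_lc Pool.Agent.H.MP_31068f_lc

theorem result : ∃ F G : Ultrafilter ℕ+, InL F ∧ InL G ∧ FE F G ∧ ¬ MDvd F G :=
  ⟨FF, GG, FF_L, GG_L, FF_le, not_mdvd⟩

end Pool.Agent.Results.MP_31068f_lc.Counter
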